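import Pool.Agent.U536.CF.Scales
import Pool.Agent.Results.MP_154526_nt.MultiplicativeValues

/-!
# Relations between multiple zeta values with arguments near integers with large common factors with the values of
multiplicative functions

A pattern in `k` variables is a list of letters `b + u_1 s_1 + ... + u_k s_k` with natural numbers `b`, `u_j`; at a tuple `s` of
natural numbers it gives an index. The first letters may be constant, of arbitrary weight. Let `w_1, ..., w_r` be admissible
patterns in `k` variables and `x_1, ..., x_t` arbitrary complex numbers.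

Let `F_1, …, F_k` be positive multiplicative functions of at most polynomial growth such that `F_i p ≤ M p` for the large
primes `p`, with different values at different large primes; for example Euler's function or the sum of the divisors. Let
`b < 1`, `0 ≤ c < 2 b - 1`, `θ ≥ 0` and `ρ ≤ 1` with `k (1 - ρ + θ) < 1`. We prove: for all `k`-tuples `m` of positive integers up to `N` but `N^k exp (-(log N)^c)`, for EVERY tuple `v` of
integers `v_i ≥ exp ((log N)^b)` with `gcd(v_i, F_i(m_i)) ≥ v_i^ρ`, for ALL tuples `s` with `|s_i - v_i| ≤ v_i^θ` and all `T` with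
`T ≤ s_i ≤ κ T` for all `i`, EVERY polynomial relation of degree at most `D` with integer coefficients of absolute value at most
`C ^ T` between the `x_j` and the multiple zeta values `ζ(w_1(s)), ..., ζ(w_r(s))` is a consequence of the stuffle product and of
the algebraic relations between the `x_j` and the multiple zeta values of the fronts. The tuples `v` include all tuples of large
divisors `v_i` of the `F_i(m_i)` and their multiples by small integers; for Euler's function, the tuples of the orders of
elements of the groups of units modulo the `m_i`.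

Proof. But for few exceptional `m ≤ N`, the number of `m` with `g ∣ F(m)` is at most `N τ_J(g) / g` up to a factor
`exp ((log N)^s)`, `J = (log N)^a`, `a < s < b`, for all `g`: write `m = k' u` with `u` squarefree and composed of primes larger
than `N^(1/J)`, `k' ≤ exp (4 (log N)^a)`. The exceptional tuples at all scales together with their windows have a power saving,
and so have the tuples of the large divisors of their coordinates; the inequality `τ_J^q ≤ τ_K` for `K ≥ J^q` with Hölder's
inequality for tuples bounds the sum of `∏ τ_J(g_i) / g_i` over these. The file `MultiplicativeValues` of the starting library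
treats the tuples `v = (F_1(m_1), …, F_k(m_k))` only, with `N^k / (log N)^U` exceptions.
-/

set_option autoImplicit false

namespace Pool.Agent.Results.MP_154526_nt.CommonFactors

open Pool.Agent.N733.TG (LM lm_totient lm_sigma)
open Pool.Agent.U536.CF (Common common_of_dvd common_order common_scales')
open Pool.Agent.Results.MP_154526_nt.ExceptionalTuples
  (mzv Letter index AdmissiblePattern IsConsequence exceptional)
open Pool.Agent.Results.MP_154526_nt.MultiplicativeValues (OnlyConsequences only_mono exceptional_eq pow_bound)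

/-- **Relations between multiple zeta values with arguments near integers with large common factors with the values of
multiplicative functions.** Let `w_1, ..., w_r` be admissible patterns in `k ≥ 1` variables, `D`, `κ` natural numbers, `C` a real
number, `x_1, ..., x_t` complex numbers, `F_1, ..., F_k` functions with `LM`, `θ ≥ 0`, `ρ ≤ 1`, `k (1 - ρ + θ) < 1`, `b < 1` and
`0 ≤ c < 2 b - 1`. For all large `N` and all but at most `N^k exp (-(log N)^c)` of the tuples `m` of integers in `[1, N]`: for
EVERY tuple `v` of integers `v_i ≥ exp ((log N)^b)` with `gcd(v_i, F_i(m_i)) ≥ v_i^ρ`, for ALL tuples `s` of natural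
numbers with `|s_i - v_i| ≤ v_i^θ` and all `T ≥ 1` with `T ≤ s_i ≤ κ T` for all `i`, every polynomial relation of
degree at most `D` with integer coefficients of absolute value at most `C ^ T` between the `x_j` and the multiple zeta
values `ζ(w_i(s))` is a consequence of the stuffle product and of the algebraic relations between the `x_j` and the multiple
zeta values of the fronts. Euler's function and the sum of the divisors satisfy `LM`. Divisors `v_i ≥ exp ((log N)^b)` of
`F_i(m_i)` are such integers, and for Euler's function the orders `≥ exp ((log N)^b)` of the units modulo `m_i`. -/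
theorem result :
    (∀ {k r : ℕ} (t : ℕ), 1 ≤ k → ∀ w : Fin r → List (Letter k), (∀ i, AdmissiblePattern (w i)) → ∀ (D κ : ℕ) (C : ℝ)
      (x : Fin t → ℂ) (F : Fin k → ℕ → ℕ), (∀ i, LM (F i)) → ∀ θ ρ b c : ℝ, 0 ≤ θ → ρ ≤ 1 → k * (1 - ρ + θ) < 1 →
      b < 1 → 0 ≤ c → c < 2 * b - 1 → ∃ N₀ : ℕ, ∀ N : ℕ, N₀ ≤ N →
      ({m : Fin k → ℕ | (∀ i, 1 ≤ m i ∧ m i ≤ N) ∧ ¬ ∀ v : Fin k → ℕ, (∀ i, Common (F i) b ρ N (m i) (v i)) →
        ∀ (s : Fin k → ℕ) (T : ℕ), 1 ≤ T → (∀ i, T ≤ s i ∧ s i ≤ κ * T) → (∀ i, |(s i : ℝ) - v i| ≤ (v i : ℝ) ^ θ) →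
          OnlyConsequences w x D (C ^ T) s}.ncard : ℝ) ≤ (N : ℝ) ^ k * Real.exp (-(Real.log N ^ c))) ∧
    (LM Nat.totient ∧ LM (fun m => ∑ d ∈ m.divisors, d)) ∧
    (∀ (f : ℕ → ℕ) (b ρ : ℝ) (N m w : ℕ), ρ ≤ 1 → Real.exp (Real.log N ^ b) ≤ (w : ℝ) → w ∣ f m → Common f b ρ N m w) ∧
    ∀ (b ρ : ℝ) (N m : ℕ), ρ ≤ 1 → ∀ x : (ZMod m)ˣ, Real.exp (Real.log N ^ b) ≤ (orderOf x : ℝ) →
      Common Nat.totient b ρ N m (orderOf x) := by
  refine ⟨fun {k r} t hk w hw D κ C x F hF θ ρ b c hθ hρ hk1 hb hc hcb => ?_, ⟨lm_totient, lm_sigma⟩,
    fun f b ρ N m w hρ hw hd => common_of_dvd hρ hw hd, fun b ρ N m hρ x hx => common_order hρ x hx⟩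
  obtain ⟨K, hK⟩ := ExceptionalTuples.result t w hw D (2 * κ)
  obtain ⟨N₁, hN₁⟩ := hK ((max |C| 1) ^ 2) x
  obtain ⟨N₀, hN₀⟩ := common_scales' hk κ (fun T s => ¬ OnlyConsequences w x D (C ^ T) s)
    (fun N s => ¬ OnlyConsequences w x D (((max |C| 1) ^ 2) ^ N) s)
    (fun N T s h1 h2 h3 h4 => h3 (only_mono w x D (pow_bound C h2.le) s h4))
    ⟨K, N₁, fun N hN => by
      rw [exceptional_eq]
      exact hN₁ N hN⟩ hF hθ hρ hk1 hb hc hcb
  refine ⟨N₀, fun N hN => le_trans (le_of_eq ?_) (hN₀ N hN)⟩
  simp only [not_not]

end Pool.Agent.Results.MP_154526_nt.CommonFactors
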