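import Pool.Agent.U553.HY.Defs
import Pool.Agent.Results.MP_154526_nt.ExceptionalTuples

/-!
# MP_154526_nt: the exceptional tuples of arguments lie on a bounded number of hyperplanes

A pattern in `k` variables is a list of letters `b + u_1 s_1 + ... + u_k s_k` with natural numbers `b`, `u_j`; at a tuple `s` of
natural numbers it gives an index. The first letters may be constant, of arbitrary weight, such as in
`ζ(5, 1, s_1, 3, s_1 + s_2)`. Let `w_1, ..., w_r` be admissible patterns in `k` variables and `x_1, ..., x_t` arbitrary complex
numbers, for instance `π`, `log 2`, or arbitrary multiple zeta values. We consider the tuples `s` with `2 ≤ s_j ≤ κ N` such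
that in each of the patterns the first letter which is not constant is at least `N`. The other letters may be small, constant,
or of intermediate size: for instance all the indices `(s_1, ..., s_k)` with `s_1 ≥ N` and arbitrary `s_j ≤ κ N`.

We prove: there is a `K`, which depends only on the patterns, `D` and `κ`, such that for all `C` and `x_1, ..., x_t` and all
large `N` the following holds outside of at most `K` hyperplanes `∑ b_j s_j = c` with integral coefficients `|b_j| ≤ K`: EVERY
polynomial relation of degree at most `D` with integer coefficients of absolute value at most `C ^ N` between the `x_j` and the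
multiple zeta values `ζ(w_1(s)), ..., ζ(w_r(s))` is a consequence of the stuffle product and of the algebraic relations between
the `x_j` and the multiple zeta values of the (finitely many, constant) fronts.

The theorem `ExceptionalTuples` of this page (helper599) bounds the number of the exceptional tuples in `[N, κ N] ^ k` by
`K N ^ (k - 1)`. This says nothing about families with fewer than `N ^ (k - 1)` tuples, for instance the tuples
`([α_1 n], ..., [α_k n])`, and it needs that all the variables are large. Proof: by the library's elimination theorem
(`Pool.Agent.X90.DC.no_many`) `3 ^ M` tuples in general position are not all exceptional; the dichotomy of the library is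
proved for the larger range, and a maximal system of exceptional tuples in general position gives the hyperplanes
(`Pool.Agent.U553.HY`).
-/

set_option autoImplicit false

namespace Pool.Agent.Results.MP_154526_nt.ExceptionalHyperplanes

open Pool.Agent.Results.MP_154526_nt.ExceptionalTuples
  (mzv Letter index AdmissiblePattern IsConsequence IsFront)
open Pool.Agent.U553.HY (Range OnHyperplanes)

/-- Every relation of degree at most `D` and with coefficients at most `H` between the numbers `x` and the multiple zeta
values of the patterns at the tuple `s` is a consequence of the stuffle product and of the relations between `x` and the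
multiple zeta values of the fronts. -/
def OnlyConsequences {k r t : ℕ} (w : Fin r → List (Letter k)) (x : Fin t → ℂ) (D : ℕ) (H : ℝ) (s : Fin k → ℕ) : Prop :=
  ∀ P : MvPolynomial (Fin t ⊕ Fin r) ℤ, P.totalDegree ≤ D → (∀ m, |((P.coeff m : ℤ) : ℝ)| ≤ H) →
    MvPolynomial.aeval (Sum.elim x fun i => ((mzv (index s (w i)) : ℝ) : ℂ)) P = 0 → IsConsequence w x s P

/-- Let `w_1, ..., w_r` be admissible patterns in `k` variables, and let `D` and `κ` be natural numbers. There is a `K`
such that for all real `C` and all complex numbers `x_1, ..., x_t` the following holds for all sufficiently large `N`. The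
tuples `s` of integers `2 ≤ s_j ≤ κ N` for which the first letters of the patterns which are not constant are at least `N`,
and for which some polynomial relation of degree at most `D` with integer coefficients of absolute value at most `C ^ N`
between the `x_j` and the multiple zeta values `ζ(w_i(s))` is not a consequence of the stuffle product and of the algebraic
relations between the `x_j` and the multiple zeta values of the fronts of the patterns `w_i`, lie on at most `K` hyperplanes
`∑ b_j s_j = c` with integers `c` and `b_j`, not all zero, `|b_j| ≤ K`. -/
theorem result {k r : ℕ} (t : ℕ) (w : Fin r → List (Letter k)) (hw : ∀ i, AdmissiblePattern (w i)) (D κ : ℕ) :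
    ∃ K : ℕ, ∀ (C : ℝ) (x : Fin t → ℂ), ∃ N₀ : ℕ, ∀ N : ℕ, N₀ ≤ N →
      OnHyperplanes K {s : Fin k → ℕ | s ∈ Range w κ N ∧ ¬ OnlyConsequences w x D (C ^ N) s} := by
  classical
  obtain ⟨K, hK⟩ := Pool.Agent.U553.HY.genH t k r D w hw {q | IsFront w q}
    (fun i q hq hne => ⟨hne, i, by rw [ExceptionalTuples.constantPart_eq]; exact hq⟩) κ
  refine ⟨K, fun C x => ?_⟩
  obtain ⟨N₀, hN₀⟩ := hK C x
  refine ⟨N₀, fun N hN => ((hN₀ N hN).mono fun s hs => ?_)⟩
  obtain ⟨⟨h1, hb⟩, hs⟩ := hs
  unfold OnlyConsequences at hs
  push Not at hs
  obtain ⟨P, h2, h3, h4, h5⟩ := hs
  refine ⟨h1, fun i => (hb i).big, P, h2, h3, ?_, fun h => h5 ?_⟩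
  · rw [← h4]
    congr 2
    funext i
    rcases i with i | i
    · rfl
    · simp only [Sum.elim_inr, ExceptionalTuples.mzv_eq]
      rfl
  · intro A _ _ y Z hF hS
    have h6 := h A y Z ?_ ?_
    · rw [← h6]
      congr 2
    · intro Q hQ
      refine hF Q ?_
      rw [← hQ]
      congr 2
      funext i
      rcases i with i | i
      · rfl
      · simp only [Sum.elim_inr, ExceptionalTuples.mzv_eq]
        rfl
    · intro u v hu hv
      rw [hS u v hu hv, ExceptionalTuples.stuffles_eq]

end Pool.Agent.Results.MP_154526_nt.ExceptionalHyperplanes
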