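import Pool.Agent.U449.BV.MZ
import Pool.Agent.Results.MP_154526_nt.ExceptionalTuples

/-!
# Double shuffle and relations between multiple zeta values with arguments near polynomials on arbitrary sets

For the patterns see the starting file `ExceptionalTuples`: a pattern in `k` variables is a list of letters `b + u_1 s_1 + ... + u_k s_k`, and the first
letters may be constant; at a tuple `s` of natural numbers it gives an index.

Let `C` be a real number and `D`, `l` natural numbers, `κ ≥ 0` and `k - 1 + k κ < δ ≤ k`. Let `p` be a large prime, `f(x, y)` ANY polynomial of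
bounded degree over the field of `p ^ k` elements with a monomial which contains both variables (for example `f = x y`), let `A`, `B`
be ARBITRARY subsets of this field with at least `p ^ δ` elements, and `g`, `h` ARBITRARY functions. For all the pairs `(a, b)` in
`A × B`, apart from a proportion of at most `p ^ (-ρ)`, the following holds for ALL tuples `s` of natural numbers in a cone
`T ≤ s_i ≤ l T` at a distance of at most `p ^ κ` from the tuple of the least residues of the `k` coordinates of
`f(a, b) + g(a) + h(b)`: EVERY polynomial relation of degree at most `D` with integer coefficients of absolute value at most `C ^ T` between fixed complex numbers `x_j` (for instance `π`, `log 2`) and the multiple zeta values `ζ(w_1(s)), ..., ζ(w_r(s))` of fixed admissible patterns is a consequence of the stuffle product and of the algebraic relations between the `x_j` and the multiple zeta values of the fronts. More generally, this holds for the values `F(a, b)` of all vector functions of two variables with few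
coincidences (`RareV`), on arbitrary finite sets. (Some tuples near the values are in no cone; for them nothing is stated.)

The starting file bounds the number of the exceptional tuples in `[N, l N] ^ k` by `K N ^ (k - 1)`, `N` large.

Since the sets and the functions `g` and `h` are arbitrary, the tuples have no arithmetic structure, and a tuple may be
taken by very many pairs. So the number of the exceptions (starting library) does not give the result directly. Proof: the
inequality of Cauchy and Schwarz; for most pairs `a, a'` the difference `F(a, b) - F(a', b)` is small for few `b`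
(`Pool.Agent.U449.BV`).
-/

set_option autoImplicit false

namespace Pool.Agent.Results.MP_154526_nt.MixedPolynomials

open Finset
open Pool.Agent.U449.BV (RareV OnProductsV on_products_cone coordinates)
open Pool.Agent.Results.MP_154526_nt.ExceptionalTuples (mzv Letter index AdmissiblePattern IsConsequence exceptional)

/-- Every relation of degree at most `D` and with coefficients at most `H` between the numbers `x` and the multiple zeta
values of the patterns at the tuple `s` is a consequence of the stuffle product and of the relations between `x` and the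
multiple zeta values of the fronts. -/
def OnlyConsequences {k r t : ℕ} (w : Fin r → List (Letter k)) (x : Fin t → ℂ) (D : ℕ) (H : ℝ) (s : Fin k → ℕ) : Prop :=
  ∀ P : MvPolynomial (Fin t ⊕ Fin r) ℤ, P.totalDegree ≤ D → (∀ m, |((P.coeff m : ℤ) : ℝ)| ≤ H) →
    MvPolynomial.aeval (Sum.elim x fun i => ((mzv (index s (w i)) : ℝ) : ℂ)) P = 0 → IsConsequence w x s P

/-- For ALL tuples `s` of natural numbers with `|s_i - x_i| ≤ W` for all `i` and all `T ≥ 1` with `T ≤ s_i ≤ l T` for all `i`: `G (C ^ T) s`. -/
def Near {k : ℕ} (G : ℝ → (Fin k → ℕ) → Prop) (C : ℝ) (l : ℕ) (W : ℝ) (x : Fin k → ℝ) : Prop :=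
  ∀ (s : Fin k → ℕ) (T : ℕ), 1 ≤ T → (∀ i, T ≤ s i ∧ s i ≤ l * T) → (∀ i, |(s i : ℝ) - x i| ≤ W) → G (C ^ T) s

lemma pow_bound (C : ℝ) (T : ℕ) : C ^ T ≤ (max |C| 1) ^ T := by
  calc C ^ T ≤ |C ^ T| := le_abs_self _
    _ = |C| ^ T := abs_pow C T
    _ ≤ (max |C| 1) ^ T := pow_le_pow_left₀ (abs_nonneg C) (le_max_left _ _) T

lemma only_mono {k r t : ℕ} (w : Fin r → List (Letter k)) (x : Fin t → ℂ) (D : ℕ) {H H' : ℝ} (h : H ≤ H')
    (s : Fin k → ℕ) (hs : OnlyConsequences w x D H' s) : OnlyConsequences w x D H s :=
  fun P h1 h2 h3 => hs P h1 (fun m => (h2 m).trans h) h3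

lemma exceptional_eq {k r t : ℕ} (w : Fin r → List (Letter k)) (x : Fin t → ℂ) (D κ N : ℕ) (H : ℝ) :
    {s : Fin k → ℕ | (∀ j, N ≤ s j ∧ s j ≤ κ * N) ∧ ¬ OnlyConsequences w x D H s} = exceptional w x D κ N H := by
  ext s
  constructor
  · rintro ⟨h1, h2⟩
    unfold OnlyConsequences at h2
    push Not at h2
    obtain ⟨P, h3, h4, h5, h6⟩ := h2
    exact ⟨h1, P, h3, h4, h5, h6⟩
  · rintro ⟨h1, P, h3, h4, h5, h6⟩
    exact ⟨h1, fun h => h6 (h P h3 h4 h5)⟩

/-- **Theorem.** Let `w_1, ..., w_r` be admissible patterns in `k ≥ 1` variables, `D`, `l` natural numbers, `C` a real number,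
`x_1, ..., x_t` complex numbers and `κ ≥ 0`. The property `Near`, that is in all cones `T ≤ s_i ≤ l T` all relations of degree at most
`D` with coefficients at most `C ^ T` are consequences, with windows of length `X ^ κ`, holds for almost all values of vector
functions of two variables with few coincidences, on arbitrary finite sets of at least `X ^ δ` elements, `k - 1 + k κ < δ ≤ k`
(`OnProductsV`).
The tuples of the least residues modulo `p` of the coordinates (with respect to a basis over the field of `p` elements) of
`f(a, b) + g(a) + h(b)` in a field of `p ^ k` elements are such a function, with `X = p`, for all polynomials `f` over this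
field with a monomial which contains both variables, arbitrary functions `g` and `h`, and arbitrary finite subsets. -/
theorem result :
    (∀ (k r t : ℕ), 1 ≤ k → ∀ w : Fin r → List (Letter k), (∀ i, AdmissiblePattern (w i)) → ∀ (D l : ℕ) (C : ℝ)
      (x : Fin t → ℂ) (κ : ℝ), 0 ≤ κ →
      OnProductsV k ((k : ℝ) - 1 + k * κ) κ (Near (OnlyConsequences w x D) C l)) ∧
    ∀ (p : ℕ) [Fact p.Prime] (k : ℕ) (K : Type) [Field K] [Algebra (ZMod p) K] (e : Module.Basis (Fin k) (ZMod p) K)
      (d : ℕ) (f : MvPolynomial (Fin 2) K), f.totalDegree ≤ d → (∃ m ∈ f.support, m 0 ≠ 0 ∧ m 1 ≠ 0) →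
      ∀ (g h : K → K) (A B : Finset K),
        RareV d A B (fun a b i => (((e.repr (MvPolynomial.eval ![a, b] f + g a + h b) i).val : ℕ) : ℝ)) := by
  refine ⟨fun k r t hk w hw D l C x κ hκ => ?_, coordinates⟩
  refine (on_products_cone hk (fun H s => ¬ OnlyConsequences w x D H s)
    (fun H H' s hH h1 h2 => h1 (only_mono w x D hH s h2)) (fun l' => ?_) (max |C| 1) (le_max_right _ _) l hκ).mono
    (fun W v _ h' s T hT hs hsv => only_mono w x D (pow_bound C T) s (not_not.1 (h' s T hT hs hsv)))
  obtain ⟨K, hK⟩ := ExceptionalTuples.result t w hw D l'
  refine ⟨K, fun C' => ?_⟩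
  obtain ⟨N₀, hN₀⟩ := hK C' x
  refine ⟨N₀, fun N hN => ?_⟩
  rw [exceptional_eq]
  exact hN₀ N hN

end Pool.Agent.Results.MP_154526_nt.MixedPolynomials
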