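import Pool.Agent.Results.MP_154526_nt.ExceptionalHyperplanes

/-!
# MP_154526_nt: multiple zeta values with arguments near the values of polynomials and of other dispersed sequences

A pattern in `k` variables is a list of letters `b + u_1 s_1 + ... + u_k s_k` with natural numbers `b`, `u_j`; at a tuple `s` of
natural numbers it gives an index. The first letters may be constant, of arbitrary weight. Let `w_1, ..., w_r` be admissible
patterns in `k` variables and `x_1, ..., x_t` arbitrary complex numbers. A family of real sequences `F_1, ..., F_k` is dispersed
if for every nonzero integer vector `b` the intervals of length two contain a bounded number of the `∑ b_j F_j(n)`. For example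
the values of real polynomials `p_1, ..., p_k` are dispersed if no nontrivial integer combination of them is constant.

We prove: the number of the `n` for which there is a tuple `s` of integers near `F(n)`, `|s_j - F_j(n)| ≤ W`, in the range of
the scale `N` (`2 ≤ s_j ≤ κ N`, and in each of the patterns the first letter which is not constant is at least `N`), with a
polynomial relation of degree at most `D` with integer coefficients at most `C ^ N` between the `x_j` and the
multiple zeta values `ζ(w_1(s)), ..., ζ(w_r(s))` which is not a consequence of the stuffle product and of the relations between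
the `x_j` and the fronts, is at most `K (W + 1)`, for ALL `W`; `K` depends only on the patterns, `D`, `κ` and the `F_j`.

So for all but a bounded number of the `n` in `[X, κ X]` every such relation between multiple zeta values such as
`ζ(n^2, n)`, `ζ(n^2 + n, n, n^2)`, or `ζ([√2 n], [√3 n])`, `ζ(3, [√2 n^2], n + 1, 5)`, is a consequence of these relations.
Such one-parameter families have much less than `N ^ (k - 1)` members if `k ≥ 2`; so this does not follow from the number
of the exceptional tuples (`ExceptionalTuples`, helper599). The windows around the values can be chosen as large as `n ^ θ`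
times a constant, with `K (n ^ θ + 1)` exceptions.

Proof: the exceptional tuples are on at most `K` hyperplanes with coefficients at most `K` (`ExceptionalHyperplanes`), and a
dispersed family is near such a hyperplane for at most `K' (W + 1)` arguments. The polynomials are treated with the mean value
theorem.
-/

set_option autoImplicit false

namespace Pool.Agent.Results.MP_154526_nt.PolynomialArguments

open Pool.Agent.Results.MP_154526_nt.ExceptionalTuples (Letter AdmissiblePattern)
open Pool.Agent.Results.MP_154526_nt.ExceptionalHyperplanes (OnlyConsequences)
open Pool.Agent.U553.HY (Range Dispersed)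

/-- Let `w_1, ..., w_r` be admissible patterns in `k` variables, and let `D` and `κ` be natural numbers.

(1) Let `F_1, ..., F_k` be a dispersed family of real sequences. There is a `K` such that for all real `C` and all complex
numbers `x_1, ..., x_t`, for all sufficiently large `N` and all natural numbers `W` there are at most `K (W + 1)` natural
numbers `n` for which there is a tuple `s` of integers `2 ≤ s_j ≤ κ N`, `|s_j - F_j(n)| ≤ W`, such that the first letters of the
patterns which are not constant are at least `N`, with a polynomial relation of degree at most `D` with integer coefficients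
of absolute value at most `C ^ N` between the `x_j` and the `ζ(w_i(s))` which is not a consequence of the stuffle product and
of the algebraic relations between the `x_j` and the multiple zeta values of the fronts of the `w_i`.

(2) The values at the natural numbers of real polynomials `p_1, ..., p_k`, such that no nontrivial integer combination of them
is constant, are a dispersed family. -/
theorem result {k r : ℕ} (t : ℕ) (w : Fin r → List (Letter k)) (hw : ∀ i, AdmissiblePattern (w i)) (D κ : ℕ) :
    (∀ F : Fin k → ℕ → ℝ, Dispersed F → ∃ K : ℕ, ∀ (C : ℝ) (x : Fin t → ℂ), ∃ N₀ : ℕ, ∀ N : ℕ, N₀ ≤ N → ∀ W : ℕ,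
      {n : ℕ | ∃ s ∈ Range w κ N, (∀ j, |(s j : ℝ) - F j n| ≤ W) ∧
        ¬ OnlyConsequences w x D (C ^ N) s}.encard ≤ (K * (W + 1) : ℕ)) ∧
    ∀ p : Fin k → Polynomial ℝ, (∀ b : Fin k → ℤ, b ≠ 0 → 0 < (∑ j, (b j : ℝ) • p j).natDegree) →
      Dispersed fun j n => (p j).eval (n : ℝ) := by
  refine ⟨fun F hF => ?_, fun p hp => Pool.Agent.U553.HY.dispersed_poly p hp⟩
  obtain ⟨K, hK⟩ := ExceptionalHyperplanes.result t w hw D κ
  obtain ⟨K', hK'⟩ := hF.few K
  refine ⟨K', fun C x => ?_⟩
  obtain ⟨N₀, hN₀⟩ := hK C x
  refine ⟨N₀, fun N hN W => (Set.encard_le_encard ?_).trans (hK' _ (hN₀ N hN) W)⟩
  rintro n ⟨s, h1, h2, h3⟩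
  exact ⟨s, ⟨h1, h3⟩, h2⟩

end Pool.Agent.Results.MP_154526_nt.PolynomialArguments
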